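import Pool.Agent.H24.MV.NoExtension

/-!
# A counterexample to extending partially `p`-periodic polynomial sequences off a quadric

The definitions (they follow the problem file literally) and the proof are in
`Pool/Agent/H24/MV/NoExtensionDefs.lean` and `Pool/Agent/H24/MV/NoExtension.lean`.
-/

open scoped Manifold ContDiff commutatorElement

namespace Pool.Agent.Results.MP_7624a3_nt.NoExtension

open Pool.H24.MV.NoExtension

/-- **Main theorem.** For all `d ≥ 3`, `s ≥ 3` and every prime `p ≥ 5` there are a quadratic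
form `M` on `𝔽_p^d` of rank at least three, an `s`-step filtered nilmanifold `G/Γ` and a
partially `p`-periodic polynomial sequence `g` on `V(M)` such that no `p`-periodic polynomial
sequence `g'` satisfies `g(n)Γ = g'(n)Γ` for all `n ∈ V(M)`. -/
theorem result : ∀ d s p : ℕ, 3 ≤ d → 3 ≤ s → p.Prime → 5 ≤ p →
    ∃ M : QForm p d, 3 ≤ M.A.rank ∧ ∃ X : FilteredNilmanifold s, ∃ g ∈ polyP X p d M.V,
      ¬ ∃ g' ∈ polyP X p d Set.univ, ∀ n ∈ M.V, (g n : X.G ⧸ X.Γ) = (g' n : X.G ⧸ X.Γ) :=
  Pool.H24.MV.NoExtension.result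

end Pool.Agent.Results.MP_7624a3_nt.NoExtension
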